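import Pool.Agent.Helper79_Real.RFinal

/-!
The complete answer to the question for real parameters.

`PC c` is the post-critical set of `z ^ 2 + c`; for a base point `t` outside `PC c`, `IMG c t` is the
group of permutations of the tree of preimages of `t` under `z ^ 2 + c` induced by lifting the loops
at `t` in the complement of `PC c` (see `Pool.Agent.Helper79_Real.HDefs`); `Renormalizable c` is
defined in `Pool.Agent.Helper79_Real.RDefs` (proper maps of degree two between topological disks with
connected filled Julia set) and `IntermediateGrowth` in `Pool.Agent.Helper79_Real.Defs`.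

If `c` is real and `z ^ 2 + c` is post-critically finite and non-renormalizable, then its iterated
monodromy group has intermediate growth if and only if `c ≠ 0` and `c ≠ -2`.
-/

namespace Pool.Agent.Results.MP_e3f5d9_al.RealNonRenorm

open Pool.Agent.Helper79_Real

theorem result (c : ℝ) (t : ℂ) (hfin : (PC (c : ℂ)).Finite) (hnr : ¬ Renormalizable (c : ℂ))
    (ht : t ∉ PC (c : ℂ)) : IntermediateGrowth (IMG (c : ℂ) t) ↔ c ≠ 0 ∧ c ≠ -2 :=
  real_IMG c t hfin hnr ht

end Pool.Agent.Results.MP_e3f5d9_al.RealNonRenorm
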